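import Pool.Agent.MWKP.Stmts

/-!
# Squad MWKP, row BBT (MP_23468a_al): type B, from a disagreement to the word bit
-/

set_option autoImplicit false

namespace Pool.Agent.MWKP.H77

open Pool.Agent.Helper14_MV Pool.Agent.Helper2_MV Pool.Agent.MWK Pool.Agent.MWKP

theorem pw_cnt (k : ℕ) (X : List ℕ) (l : ℕ) : (pw k X).count l = k * X.count l := by
  induction k with
  | zero => simp [pw]
  | succ k ih =>
    have e : pw (k + 1) X = X ++ pw k X := by
      simp [pw, List.replicate_succ]
    rw [e, List.count_append, ih]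
    ring

theorem pw_mem {k : ℕ} {X : List ℕ} {l : ℕ} (h : l ∈ pw k X) : l ∈ X := by
  rw [pw, List.mem_flatten] at h
  obtain ⟨Y, hY, hl⟩ := h
  rw [(List.mem_replicate.1 hY).2] at hl
  exact hl

theorem fm_rep (g : ℕ → List ℕ) (a x : ℕ) : (List.replicate a x).flatMap g = pw a (g x) := by
  induction a with
  | zero => rfl
  | succ a ih =>
    rw [List.replicate_succ, List.flatMap_cons, ih]
    simp [pw, List.replicate_succ]

theorem fil_x (F : ℕ → Bool) (x : ℕ) (l : List ℕ) (h : ∀ z ∈ l, (F z = true ↔ z = x)) :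
    l.filter F = List.replicate (l.count x) x := by
  induction l with
  | nil => rfl
  | cons a l ih =>
    have ih' := ih (fun z hz => h z (List.mem_cons_of_mem _ hz))
    by_cases hax : a = x
    · have hF : F a = true := (h a (by simp)).2 hax
      rw [List.filter_cons, if_pos hF, ih', hax, List.count_cons_self, List.replicate_succ]
    · have hF : ¬ F a = true := fun hh => hax ((h a (by simp)).1 hh)
      rw [List.filter_cons, if_neg hF, ih', List.count_cons_of_ne hax]

/-- the part in front of the chain, filtered -/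
theorem hdl (w cs : List ℕ) (x y : ℕ) (hne : x ≠ y) (hy : y ∈ w)
    (hc : Chc w [y] cs) : ∃ b, (hd cs w).filter (fun z => decide (z ∈ [x, y] ∨ z ∈ cs)) =
      List.replicate ((pre w y).count x) x ++ y :: List.replicate b x ∧
        (pre w y).count x + b = (hd cs w).count x := by
  have hW : y ∈ hd cs w ∧ pre (hd cs w) y = pre w y ∧ (hd cs w).count y = 1 ∧
      ∀ c ∈ cs, c ∉ hd cs w := by
    cases cs with
    | nil =>
      refine ⟨hy, rfl, ?_, by simp⟩
      exact hc y (by simp)
    | cons c cs =>
      obtain ⟨h1, h2, h3⟩ := hc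
      have h4 : (pre w c).count y = 1 := h1 y (by simp)
      have h5 : y ∈ pre w c := mem_pre_of_count h4
      obtain ⟨D, hD⟩ := pre_prefix w c
      refine ⟨h5, (pre_of_prefix hD.symm h5).symm, h4, ?_⟩
      intro c' hc'
      rcases List.mem_cons.1 hc' with rfl | hc'
      · exact not_mem_pre w c'
      · exact pre_asymm (h3.mem_pre c (by simp) c' hc')
  obtain ⟨h1, h2, h3, h4⟩ := hW
  obtain ⟨B, hB⟩ := mem_split h1
  rw [h2] at hB
  have hyA : y ∉ pre w y := not_mem_pre w y
  have hyB : y ∉ B := by
    intro h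
    have h5 := h3
    rw [hB, List.count_append, List.count_cons_self] at h5
    have h6 : 0 < B.count y := List.count_pos_iff.2 h
    omega
  have hFi : ∀ l : List ℕ, (∀ z ∈ l, z ∈ hd cs w) → y ∉ l →
      l.filter (fun z => decide (z ∈ [x, y] ∨ z ∈ cs)) = List.replicate (l.count x) x := by
    intro l hl hyl
    refine fil_x _ x l ?_
    intro z hz
    simp only [List.mem_cons, List.not_mem_nil, or_false, decide_eq_true_eq]
    constructor
    · rintro ((h | h) | h)
      · exact h
      · exact absurd (h ▸ hz) hyl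
      · exact absurd (hl z hz) (h4 z h)
    · intro h
      exact Or.inl (Or.inl h)
  refine ⟨B.count x, ?_, ?_⟩
  · rw [hB, List.filter_append, List.filter_cons, if_pos (by simp), hFi (pre w y) (by
      intro z hz
      rw [hB]
      exact List.mem_append_left _ hz) hyA, hFi B (by
      intro z hz
      rw [hB]
      simp [hz]) hyB]
  · rw [hB, List.count_append, List.count_cons_of_ne (fun h => hne h.symm)]

/-- powers of a dead word can be deleted from the inserted words -/
theorem insx {n : ℕ} {θ : FIC} (hK : Kn n θ) (hKDD : KddStmt) (x y : ℕ) (g g' : ℕ → List ℕ)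
    (ξ : ℕ → ℕ → ℕ) (X R : List ℕ) (hgx : g x = pw (2 * n) X) (hgx' : g' x = [])
    (hgy : g' y = g y) : ∀ (qs : List (List ℕ)) (s : ℕ) (P : List ℕ), (∀ l ∈ X, 2 ≤ P.count l) →
      RR θ (P ++ ins [x, y] g ξ s qs ++ R) (P ++ ins [x, y] g' ξ s qs ++ R) := by
  intro qs
  induction qs with
  | nil =>
    intro s P _
    exact RR.refl _
  | cons q qs ih =>
    intro s P hX
    have e1 : P ++ ins [x, y] g ξ s (q :: qs) ++ R =
        (P ++ q) ++ pw (ξ s x) (pw (2 * n) X) ++ (pw (ξ s y) (g y) ++ ins [x, y] g ξ (s + 1) qs ++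
          R) := by
      simp only [ins, List.flatMap_cons, List.flatMap_nil, List.append_nil, hgx,
        List.append_assoc]
    have e2 : (P ++ q) ++ [] ++ (pw (ξ s y) (g y) ++ ins [x, y] g ξ (s + 1) qs ++ R) =
        (P ++ q ++ pw (ξ s y) (g y)) ++ ins [x, y] g ξ (s + 1) qs ++ R := by
      simp only [List.append_nil, List.append_assoc]
    have e3 : P ++ ins [x, y] g' ξ s (q :: qs) ++ R =
        (P ++ q ++ pw (ξ s y) (g y)) ++ ins [x, y] g' ξ (s + 1) qs ++ R := by
      have e4 : pw (ξ s x) ([] : List ℕ) = [] := by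
        simp [pw]
      simp only [ins, List.flatMap_cons, List.flatMap_nil, List.append_nil, hgx', hgy, e4,
        List.nil_append, List.append_assoc]
    rw [e1, e3]
    have h1 := hKDD n θ hK (P ++ q) (pw (ξ s x) (pw (2 * n) X)) []
      (pw (ξ s y) (g y) ++ ins [x, y] g ξ (s + 1) qs ++ R) (by
        intro l hl
        have := hX l (pw_mem (pw_mem hl))
        rw [List.count_append]
        omega) (by simp) (by
        intro l
        rw [pw_cnt, pw_cnt, List.count_nil]
        refine (Nat.modEq_zero_iff_dvd).2 ⟨ξ s x * (2 * X.count l), ?_⟩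
        ring)
    rw [e2] at h1
    refine θ.trans h1 (ih (s + 1) _ ?_)
    intro l hl
    have := hX l hl
    simp only [List.count_append] at this ⊢
    omega

theorem bbt (hKDD : KddStmt) (_ : KitStmt) (hSPF : SpfStmt) (hPUR : PurStmt) : BbtStmt := by
  intro n θ hK m u v x y cs huv hlen hxu hxv hxvm hyu hyv hcu hcv hcx P X C qs R hqs hOk
  have hn := hK.pos
  have hne : x ≠ y := by
    rintro rfl
    exact not_mem_pre u x hxu
  have hxcs : x ∉ cs := fun h => not_mem_pre v x (hcx x h)
  have hycs : y ∉ cs := Chc.not_mem hcu (z := y) (by simp)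
  have hL : ∀ z ∈ [x, y], z ∉ cs := by
    intro z hz
    simp only [List.mem_cons, List.not_mem_nil, or_false] at hz
    rcases hz with rfl | rfl
    · exact hxcs
    · exact hycs
  have h0 : ∀ w : List ℕ, ∀ c c0 : ℕ, 1 ≤ 0 → cs[0]? = some c → cs[0]? = some c0 →
      (pre w c).count y = (pre w c0).count y := by
    intro w c c0 h
    omega
  have h0' : ∀ w : List ℕ, ∀ c0 : ℕ, 1 ≤ 0 → cs[0]? = none → cs[0]? = some c0 →
      w.count y = (pre w c0).count y := by
    intro w c0 h
    omega
  obtain ⟨hSu, hhu⟩ := hSPF y 0 [x, y] cs [y] u hL hcu (h0 u) (h0' u)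
  obtain ⟨hSv, hhv⟩ := hSPF y 0 [x, y] cs [y] v hL hcv (h0 v) (h0' v)
  obtain ⟨ξ, -, hξ⟩ := hPUR n θ hK y cs 0 [x, y] _ _ (by simp) (by simp [hne]) hSu hSv
    (huv.filter _)
  obtain ⟨b, hbu, -⟩ := hdl u cs x y hne hyu hcu
  obtain ⟨b', hbv, hbv2⟩ := hdl v cs x y hne hyv hcv
  have hv0 : (pre v y).count x = 0 := List.count_eq_zero.2 hxv
  have ha : 1 ≤ (pre u y).count x := List.count_pos_iff.2 hxu
  have hb' : 1 ≤ b' := by
    have h1 : 0 < (hd cs v).count x := by
      refine List.count_pos_iff.2 ?_
      cases cs with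
      | nil => exact hxvm
      | cons c cs => exact hcx c (by simp)
    omega
  rw [hhu, hhv, hbu, hbv, hv0] at hξ
  generalize (pre u y).count x = a at ha hξ
  clear hbu hbv hhu hhv hSu hSv h0 h0'
  -- the two substitutions
  let g : ℕ → List ℕ := fun z => if z = x then pw (2 * n) X else if z = y then C else []
  let g' : ℕ → List ℕ := fun z => if z = y then C else []
  have hgx : g x = pw (2 * n) X := if_pos rfl
  have hgy : g y = C := by
    show (if y = x then pw (2 * n) X else if y = y then C else []) = C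
    rw [if_neg (fun h => hne h.symm), if_pos rfl]
  have hgx' : g' x = [] := if_neg hne
  have hgy' : g' y = C := if_pos rfl
  have hfil : ([x, y] : List ℕ).filter (fun z => decide (z ≠ y)) = [x] := by
    simp [List.filter_cons, hne]
  have hu1 : (List.replicate a x ++ y :: List.replicate b x).flatMap g =
      pw a (pw (2 * n) X) ++ (C ++ pw b (pw (2 * n) X)) := by
    rw [List.flatMap_append, List.flatMap_cons, fm_rep, fm_rep, hgx, hgy]
  have hv1 : (List.replicate 0 x ++ y :: List.replicate b' x).flatMap g =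
      C ++ pw b' (pw (2 * n) X) := by
    rw [List.flatMap_append, List.flatMap_cons, fm_rep, fm_rep, hgx, hgy]
    rfl
  have hnil : ∀ k : ℕ, pw k ([] : List ℕ) = [] := by
    intro k
    simp [pw]
  have hu2 : (List.replicate a x ++ y :: List.replicate b x).flatMap g' = C := by
    rw [List.flatMap_append, List.flatMap_cons, fm_rep, fm_rep, hgx', hgy', hnil, hnil]
    simp
  have hv2 : (List.replicate 0 x ++ y :: List.replicate b' x).flatMap g' = C := by
    rw [List.flatMap_append, List.flatMap_cons, fm_rep, fm_rep, hgx', hgy', hnil, hnil]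
    simp
  have hXX : ∀ (Z : List ℕ) (k : ℕ), 1 ≤ k → (∀ l, k * (2 * n * X.count l) ≤ Z.count l) →
      ∀ l ∈ X, 2 ≤ Z.count l := by
    intro Z k hk hZ l hl
    have h1 : 1 ≤ X.count l := List.count_pos_iff.2 hl
    refine le_trans ?_ (hZ l)
    calc 2 = 1 * (2 * 1 * 1) := rfl
      _ ≤ k * (2 * n * X.count l) :=
        Nat.mul_le_mul hk (Nat.mul_le_mul (Nat.mul_le_mul (le_refl 2) hn) h1)
  -- the conditions
  have hOk1 : ∀ A : List ℕ, (∀ l ∈ X, 2 ≤ (P ++ A).count l) → (∀ l, C.count l ≤ A.count l) →
      Ok (P ++ A) (pw (2 * n) X) qs ∧ (0 < qs.length → ∀ l ∈ C,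
        2 ≤ (P ++ A ++ (qs.take (0 + 1)).flatten).count l) := by
    intro A hA hCA
    cases qs with
    | nil => exact ⟨trivial, fun h => by simp at h⟩
    | cons q qs =>
      obtain ⟨k1, k2⟩ := hOk
      refine ⟨⟨?_, ?_⟩, ?_⟩
      · intro z hz
        have h1 := hA z (pw_mem hz)
        rw [List.count_append]
        omega
      · refine T.okm qs (P ++ C ++ q) (P ++ A ++ q) q q k2 ?_ (fun z hz => hz)
        intro l
        have h1 := hCA l
        simp only [List.count_append]
        omega
      · intro _ l hl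
        have h1 := k1 l hl
        have h2 := hCA l
        have e : ((q :: qs).take (0 + 1)).flatten = q := by simp
        rw [e]
        simp only [List.count_append] at h1 ⊢
        omega
  have hA := hξ g P qs R (by rw [hqs, hlen]) (by
      unfold Okd
      rw [hfil, hu1, hgy]
      have e : [x].flatMap g = pw (2 * n) X := by
        rw [List.flatMap_cons, List.flatMap_nil, List.append_nil, hgx]
      rw [e]
      refine hOk1 _ (hXX _ a ha ?_) ?_
      · intro l
        simp only [List.count_append, pw_cnt]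
        omega
      · intro l
        simp only [List.count_append]
        omega) (by
      unfold Okd
      rw [hfil, hv1, hgy]
      have e : [x].flatMap g = pw (2 * n) X := by
        rw [List.flatMap_cons, List.flatMap_nil, List.append_nil, hgx]
      rw [e]
      refine hOk1 _ (hXX _ b' hb' ?_) ?_
      · intro l
        simp only [List.count_append, pw_cnt]
        omega
      · intro l
        simp only [List.count_append]
        omega)
  rw [hu1, hv1] at hA
  have hdvd : ∀ k l : ℕ, (pw k (pw (2 * n) X)).count l ≡ (pw 0 (pw (2 * n) X)).count l [MOD n] := by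
    intro k l
    rw [pw_cnt, pw_cnt, pw_cnt, Nat.zero_mul]
    refine (Nat.modEq_zero_iff_dvd).2 ⟨k * (2 * X.count l), ?_⟩
    ring
  have hsucc : ∀ k : ℕ, 1 ≤ k → pw k (pw (2 * n) X) =
      pw (2 * n) X ++ pw (k - 1) (pw (2 * n) X) := by
    intro k hk
    obtain ⟨j, rfl⟩ : ∃ j, k = j + 1 := ⟨k - 1, by omega⟩
    simp [pw, List.replicate_succ]
  -- delete powers
  have hdel : ∀ (A B : List ℕ) (k : ℕ), (∀ l ∈ X, 2 ≤ A.count l) →
      RR θ (A ++ pw k (pw (2 * n) X) ++ B) (A ++ B) := by
    intro A B k hAl
    have h1 := hKDD n θ hK A (pw k (pw (2 * n) X)) (pw 0 (pw (2 * n) X)) B (by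
        intro l hl
        exact hAl l (pw_mem (pw_mem hl))) (by
        intro l hl
        exact hAl l (pw_mem (pw_mem hl))) (hdvd k)
    have e : A ++ pw 0 (pw (2 * n) X) ++ B = A ++ B := by
      simp [pw]
    rw [e] at h1
    exact h1
  have hX1 : ∀ A : List ℕ, (∀ l, 2 * n * X.count l ≤ A.count l) → ∀ l ∈ X, 2 ≤ A.count l := by
    intro A hA
    refine hXX A 1 (le_refl 1) ?_
    intro l
    rw [Nat.one_mul]
    exact hA l
  -- left side
  have s1 : RR θ (P ++ pw (2 * n) X ++ C ++ qs.flatten ++ R)
      (P ++ (pw a (pw (2 * n) X) ++ (C ++ pw b (pw (2 * n) X))) ++ qs.flatten ++ R) := by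
    have t1 := hdel (P ++ pw (2 * n) X) (C ++ pw b (pw (2 * n) X) ++ qs.flatten ++ R) (a - 1)
      (hX1 _ (by
        intro l
        simp only [List.count_append, pw_cnt]
        omega))
    have t2 := hdel (P ++ pw (2 * n) X ++ C) (qs.flatten ++ R) b (hX1 _ (by
        intro l
        simp only [List.count_append, pw_cnt]
        omega))
    have e1 : P ++ pw (2 * n) X ++ pw (a - 1) (pw (2 * n) X) ++
        (C ++ pw b (pw (2 * n) X) ++ qs.flatten ++ R) =
          P ++ (pw a (pw (2 * n) X) ++ (C ++ pw b (pw (2 * n) X))) ++ qs.flatten ++ R := by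
      rw [hsucc a ha]
      simp only [List.append_assoc]
    have e2 : P ++ pw (2 * n) X ++ C ++ pw b (pw (2 * n) X) ++ (qs.flatten ++ R) =
        P ++ pw (2 * n) X ++ (C ++ pw b (pw (2 * n) X) ++ qs.flatten ++ R) := by
      simp only [List.append_assoc]
    have e3 : P ++ pw (2 * n) X ++ C ++ (qs.flatten ++ R) =
        P ++ pw (2 * n) X ++ C ++ qs.flatten ++ R := by
      simp only [List.append_assoc]
    rw [e1] at t1
    rw [e2, e3] at t2
    exact θ.trans t2.symm t1.symm
  -- right side
  have s2 : RR θ (P ++ (C ++ pw b' (pw (2 * n) X)) ++ ins [x, y] g ξ 0 qs ++ R)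
      (P ++ C ++ pw (2 * n) X ++ ins [x, y] g' ξ 0 qs ++ R) := by
    have t1 := insx hK hKDD x y g g' ξ X R hgx hgx' (by rw [hgy, hgy']) qs 0
      (P ++ (C ++ pw b' (pw (2 * n) X))) (hXX _ b' hb' (by
        intro l
        simp only [List.count_append, pw_cnt]
        omega))
    have t2 := hdel (P ++ C ++ pw (2 * n) X) (ins [x, y] g' ξ 0 qs ++ R) (b' - 1)
      (hX1 _ (by
        intro l
        simp only [List.count_append, pw_cnt]
        omega))
    have e1 : P ++ C ++ pw (2 * n) X ++ pw (b' - 1) (pw (2 * n) X) ++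
        (ins [x, y] g' ξ 0 qs ++ R) =
          P ++ (C ++ pw b' (pw (2 * n) X)) ++ ins [x, y] g' ξ 0 qs ++ R := by
      rw [hsucc b' hb']
      simp only [List.append_assoc]
    have e2 : P ++ C ++ pw (2 * n) X ++ (ins [x, y] g' ξ 0 qs ++ R) =
        P ++ C ++ pw (2 * n) X ++ ins [x, y] g' ξ 0 qs ++ R := by
      simp only [List.append_assoc]
    rw [e1, e2] at t2
    exact θ.trans t1 t2
  refine θ.trans (θ.trans (θ.trans s1 hA) s2) ?_
  -- (Y)
  cases qs with
  | nil => exact RR.refl _
  | cons q qs =>
    obtain ⟨k1, k2⟩ := hOk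
    have hOk2 : Okd g' y 0 [x, y] P (List.replicate a x ++ y :: List.replicate b x)
        ((pw (2 * n) X ++ q) :: qs) ∧ Okd g' y 0 [x, y] P
          (List.replicate 0 x ++ y :: List.replicate b' x) ((pw (2 * n) X ++ q) :: qs) := by
      unfold Okd
      rw [hfil, hu2, hv2, hgy']
      have e : [x].flatMap g' = [] := by
        rw [List.flatMap_cons, List.flatMap_nil, List.append_nil, hgx']
      rw [e]
      have h1 : Ok (P ++ C) [] ((pw (2 * n) X ++ q) :: qs) ∧
          (0 < ((pw (2 * n) X ++ q) :: qs).length → ∀ l ∈ C,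
            2 ≤ (P ++ C ++ (((pw (2 * n) X ++ q) :: qs).take (0 + 1)).flatten).count l) := by
        refine ⟨⟨by simp, ?_⟩, ?_⟩
        · cases qs with
          | nil => trivial
          | cons q' qs =>
            obtain ⟨k3, k4⟩ := k2
            refine ⟨?_, ?_⟩
            · intro z hz
              rcases List.mem_append.1 hz with hz | hz
              · exact hX1 _ (by
                  intro l
                  simp only [List.count_append, pw_cnt]
                  omega) z (pw_mem hz)
              · have h2 := k3 z hz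
                simp only [List.count_append] at h2 ⊢
                omega
            · refine T.okm qs _ _ q' q' k4 ?_ (fun z hz => hz)
              intro l
              simp only [List.count_append]
              omega
        · intro _ l hl
          have h2 := k1 l hl
          have e2 : (((pw (2 * n) X ++ q) :: qs).take (0 + 1)).flatten = pw (2 * n) X ++ q := by
            simp
          rw [e2]
          simp only [List.count_append] at h2 ⊢
          omega
      exact ⟨h1, h1⟩
    have hY := hξ g' P ((pw (2 * n) X ++ q) :: qs) R (by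
      rw [hlen, ← hqs]
      rfl) hOk2.1 hOk2.2
    rw [hu2, hv2] at hY
    have e1 : P ++ C ++ ((pw (2 * n) X ++ q) :: qs).flatten ++ R =
        P ++ C ++ pw (2 * n) X ++ (q :: qs).flatten ++ R := by
      simp only [List.flatten_cons, List.append_assoc]
    have e2 : P ++ C ++ ins [x, y] g' ξ 0 ((pw (2 * n) X ++ q) :: qs) ++ R =
        P ++ C ++ pw (2 * n) X ++ ins [x, y] g' ξ 0 (q :: qs) ++ R := by
      simp only [ins, List.append_assoc]
    rw [e1, e2] at hY
    exact hY.symm

end Pool.Agent.MWKP.H77
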